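import Pool.Agent.L5helper72.BD.Defs

set_option autoImplicit false

namespace Pool.Agent.L5helper72.BD
open Finset Filter Topology

/-- The other side of the threshold: for `θ > 1` most `n` are blocked, if `C` is large. -/
def St_SPR : Prop := ∀ (A θ δ : ℝ), 0 < A → 1 < θ → 0 < δ → ∃ C : ℝ, 0 < C ∧
  ∀ᶠ N : ℕ in atTop, (Set.ncard {n | n < N ∧ (Big A C θ n).Nonempty} : ℝ) ≤ δ * N

end Pool.Agent.L5helper72.BD
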