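import Mathlib
import Pool.Agent.L5helper72.BD.Final
import Pool.Agent.L5helper15.BD.MOM
import Pool.Agent.L5helper82.BD.DET
import Pool.Agent.L5helper75.BD.PER
import Pool.Agent.L5helper33.BD.PAR
import Pool.Agent.L5helper11.BD.SPR

set_option autoImplicit false

/-!
# The density of the blocked integers: the threshold is the exponent one

Let `p(m)` be the least prime factor of `m`. The problem asks whether for every `ε > 0` and some `C`
infinitely many `n` are blocked: `p(n+k) ≤ exp((1+ε) √k) + C` for all `k ≥ 1`. Here the natural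
density of the blocked `n` is determined for all bounds `exp(A k^θ) + C`, `θ ≠ 1`:

* for `θ < 1` (so for the bound of the problem, `θ = 1/2`) it is zero for every `C`; even the set of
  the `n` with at most `m` exceptional `k` has density zero, for every `m`;
* for `θ > 1` the lower density of the blocked `n` tends to one as `C → ∞`.

The proof for `θ < 1`. Let `P` be the product of the primes up to `z` and `t = ⌊n/P⌋`. The numbers
`P(t+j)+1`, `1 ≤ j ≤ J`, are of the form `n + k` with `2 ≤ k ≤ P(J+1)` and have no prime factor `≤ z`.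
For two of them the divisibilities by the primes `z < p ≤ F`, `F` about `exp(A (P(J+1))^θ)`, are
almost independent (the difference of two of them has few prime factors `> z`), so that the second
moment over a complete period gives that almost all `t` have about `J ∏ (1 - 1/p) ≥ c J / log F`
values `j` with `p(P(t+j)+1) > F`; with `J = 4^(g z)`, `g > θ/(1-θ)`, this tends to infinity. For
`θ > 1` the numbers free of primes `≤ y` are counted from above, and the sum over `k` converges.
-/

open Filter Topology

namespace Pool.Agent.L5helper72.BD.BlockedDensity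

/-- The positive integers `k` with `p(n + k) > exp(A k^θ) + C`. -/
def exceptional (A C θ : ℝ) (n : ℕ) : Set ℕ :=
  {k : ℕ | 1 ≤ k ∧ Real.exp (A * (k : ℝ) ^ θ) + C < ((n + k).minFac : ℝ)}

theorem result :
    -- (1) the bound of the problem: for all `ε > 0` and `C` the blocked `n` have density zero
    (∀ ε C : ℝ, 0 < ε →
      Tendsto (fun N : ℕ => (Set.ncard {n : ℕ | n < N ∧ ∀ k : ℕ, 1 ≤ k →
        ((n + k).minFac : ℝ) ≤ Real.exp ((1 + ε) * Real.sqrt k) + C} : ℝ) / N) atTop (𝓝 0)) ∧
    -- (2) every exponent `θ < 1`: the `n` with at most `m` exceptional `k` have density zero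
    (∀ (A C θ : ℝ) (m : ℕ), 0 < A → 0 < θ → θ < 1 →
      Tendsto (fun N : ℕ =>
        (Set.ncard {n : ℕ | n < N ∧ (exceptional A C θ n).encard ≤ m} : ℝ) / N) atTop (𝓝 0)) ∧
    -- (3) every exponent `θ > 1`: for large `C` the blocked `n` have lower density at least `1 - δ`
    (∀ A θ δ : ℝ, 0 < A → 1 < θ → 0 < δ → ∃ C : ℝ, 0 < C ∧ ∀ᶠ N : ℕ in atTop,
      (1 - δ) * N ≤ (Set.ncard {n : ℕ | n < N ∧ ∀ k : ℕ, 1 ≤ k →
        ((n + k).minFac : ℝ) ≤ Real.exp (A * (k : ℝ) ^ θ) + C} : ℝ)) := by
  have hM : Pool.Agent.L5helper72.BD.St_MAIN :=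
    Pool.Agent.L5helper72.BD.MAIN_of Pool.Agent.L5helper15.BD.MOM_holds
      Pool.Agent.L5helper33.BD.PAR_holds Pool.Agent.L5helper82.BD.DET_holds
      Pool.Agent.L5helper75.BD.PER_holds
  exact ⟨Pool.Agent.L5helper72.BD.part_one hM, hM,
    Pool.Agent.L5helper72.BD.part_three Pool.Agent.L5helper11.BD.SPR_holds⟩

end Pool.Agent.L5helper72.BD.BlockedDensity
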